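import Pool.Agent.H12.KI.AUG

/-!
# KEW-I: the augmentation of the Gersten complex is the only extension
-/

open CategoryTheory TopologicalSpace Opposite Limits AlgebraicGeometry
open Pool.Agent.H84.KEW Pool.Agent.H12.KI Pool.Agent.H15.KS

universe u

namespace Pool.Agent.H15.KI

noncomputable section

/-- Morphisms to skyscraper sheaves are determined by their composition with a morphism which is
bijective at the point. -/
theorem sky_ext {X : TopCat.{u}} (x : X) [∀ U : Opens X, Decidable (x ∈ U)] (B : AddCommGrpCat.{u})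
    {F G : SHF X} (c : F ⟶ G)
    (hi : ∀ (U : Opens X), x ∈ U → ∀ s : F.obj.obj (op U), c.hom.app (op U) s = 0 →
      ∃ (V : Opens X) (hV : V ≤ U), x ∈ V ∧ F.obj.map (homOfLE hV).op s = 0)
    (hs : LocSurjAt c x) (g g' : G ⟶ skyscraperSheaf x B) (h : c ≫ g = c ≫ g') : g = g' := by
  have h0 := isIso_stalk x c hi hs
  let adj := stalkSkyscraperSheafAdjunction (C := AddCommGrpCat.{u}) x
  let L := TopCat.Sheaf.forget AddCommGrpCat.{u} X ⋙ TopCat.Presheaf.stalkFunctor AddCommGrpCat.{u} x
  have hL : IsIso (L.map c) := h0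
  have h1 : L.map c ≫ (adj.homEquiv G B).symm g = L.map c ≫ (adj.homEquiv G B).symm g' := by
    refine (adj.homEquiv_naturality_left_symm c g).symm.trans ?_
    refine Eq.trans ?_ (adj.homEquiv_naturality_left_symm c g')
    exact congrArg (adj.homEquiv F B).symm h
  exact (adj.homEquiv G B).symm.injective ((cancel_epi (L.map c)).1 h1)

/-- Morphisms to sheaves of finite families are determined by their composition with a morphism
which is locally bijective at the points. -/
theorem fam_ext {X : TopCat.{u}} [NoetherianSpace X] {ι : Type u} [Finite ι] (p : ι → X)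
    (B : ι → AddCommGrpCat.{u}) {F G : SHF X} (c : F ⟶ G)
    (hi : ∀ i, ∀ (U : Opens X), p i ∈ U → ∀ s : F.obj.obj (op U), c.hom.app (op U) s = 0 →
      ∃ (V : Opens X) (hV : V ≤ U), p i ∈ V ∧ F.obj.map (homOfLE hV).op s = 0)
    (hs : ∀ i, LocSurjAt c (p i)) (g g' : G ⟶ (E p (fun i => B i)).sheaf)
    (h : c ≫ g = c ≫ g') : g = g' := by
  classical
  refine hom_ext_prE p fun i => sky_ext (p i) (B i) c (hi i) (hs i) _ _ ?_
  have h1 := congrArg (fun k => k ≫ prE p B i) h
  exact (Category.assoc _ _ _).symm.trans (h1.trans (Category.assoc _ _ _))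

/-- The augmentation is the only extension of the map on the Milnor K-sheaf. -/
theorem aug_unique {e : ℕ} {T : Version.{u} (e + 1)} (hT : Good T) (X : Scheme.{u})
    [IsNoetherian X]
    (hinf : ∀ v : Pt X (e + 1) (e + 1),
      Infinite (IsLocalRing.ResidueField (X.presheaf.stalk v.pt)))
    (g g' : T.S X ⟶ C X (e + 1) (e + 1)) (h : T.c X ≫ g = T.c X ≫ g') : g = g' := by
  have hfin : Finite (Pool.Agent.H17.KW.Pts X (e + 1) (e + 1)) :=
    Set.finite_univ_iff.mp (Pool.Agent.H17.KW.finite_pts X (e + 1))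
  have h2 : T.c X ≫ (g ≫ (Pool.Agent.H84.KB.isoC X (e + 1) (e + 1)).hom) =
      T.c X ≫ (g' ≫ (Pool.Agent.H84.KB.isoC X (e + 1) (e + 1)).hom) := by
    rw [← Category.assoc, ← Category.assoc, h]
  have h1 := fam_ext (X := X.toTopCat)
    (fun v : Pool.Agent.H17.KW.Pts X (e + 1) (e + 1) => (v.1 : X))
    (fun v => AddCommGrpCat.of (Pool.Agent.H62.MK.MilnorK (Pool.Agent.H17.KW.kap X v.1) (e + 1)))
    (T.c X) (fun v => hT.inj X v.1 (hinf v)) (fun v => hT.surj X v.1 (hinf v)) _ _ h2
  exact (cancel_mono (Pool.Agent.H84.KB.isoC X (e + 1) (e + 1)).hom).1 h1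

end

end Pool.Agent.H15.KI
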