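import Pool.Agent.H15.KI.TargetsC

/-!
# Project KEW-I: targets, with the injectivity of the comparison map in degree one
-/

open CategoryTheory TopologicalSpace Opposite AlgebraicGeometry Limits
open Pool.Agent.H15.KS Pool.Agent.H62.KB

universe u

namespace Pool.Agent.H15.KI

noncomputable section

/-- MDX: the data for the general resolution, from a good version, with injectivity in degree
one. -/
def T_MDX' : Prop :=
  ∀ (A : Type u) [CommRing A] [IsDomain A] [IsDiscreteValuationRing A] [HenselianLocalRing A]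
    [CharZero A] (X : Scheme.{u}) [IsNoetherian X] (f : X ⟶ Spec (CommRingCat.of A)) (π : A)
    (e q n : ℕ) [SmoothOfRelativeDimension (e + 1) f], Irreducible π →
    ∀ T : Version.{u} (e + 1), Good T → (e = 0 → ∀ Y : Scheme.{u}, Mono (T.c Y)) →
    GerstenT T X → T.c X ≫ aug T X = top X (e + 1) →
    ∃ (μ : Md f π e q n) (a : T.S X ≅ μ.K) (b : push (thickι f n) (Q T (thick f n) q) ≅ μ.F),
      aug T X ≫ (Pool.Agent.H84.KB.isoC X (e + 1) (e + 1)).hom = a.hom ≫ μ.t ∧
      redQ T (thickι f n) q ≫ b.hom = a.hom ≫ μ.ρ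

/-- The conclusion, with injectivity in degree one. -/
def T_FIN' : Prop :=
  ∀ (A : Type u) [CommRing A] [IsDomain A] [IsDiscreteValuationRing A]
    [HenselianLocalRing A] [CharZero A] (p : ℕ), p.Prime → ∀ (π ε : A) (E : ℕ), Irreducible π →
    IsUnit ε → (p : A) = ε * π ^ E →
    ∀ (X : Scheme.{u}) [IsNoetherian X] (f : X ⟶ Spec (CommRingCat.of A)) (e : ℕ)
      [SmoothOfRelativeDimension (e + 1) f], IsProjectiveOver f →
    ∀ T : Version.{u} (e + 1), Good T → (e = 0 → ∀ Y : Scheme.{u}, Mono (T.c Y)) →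
    GerstenT T X →
    T.c X ≫ aug T X = top X (e + 1) ∧
    (∀ z : Cyc X e, IsConn (C X (e + 1)) (dC X (e + 1)) e (aug T X) (ZZ X)
      (ap (toH (C X (e + 1) 0)) z) (ap (cycT T X) z)) ∧ ∀ r : ℕ,
    (∀ n : ℕ, toCHq X e (p ^ r) ≫ resQ T f (p ^ r) n ≫
        pushH (thickι f n) (Q T (thick f n) (p ^ r)) (e + 1) =
      cycT T X ≫ onH (redQ T (thickι f n) (p ^ r)) (e + 1)) ∧
    ProIsoQ T f (p ^ r) ∧
    (∀ n ≥ 1, Function.Surjective (ap (resQ T f (p ^ r) n))) ∧
    ∀ n ≥ 2 * (r * E) + 2, Function.Bijective (ap (resQ T f (p ^ r) n))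

end

end Pool.Agent.H15.KI
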