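import Pool.Agent.H15.KI.All1
import Pool.Agent.H62.KI.MDX3

/-!
# Project KEW-I: the assembly
-/

open CategoryTheory AlgebraicGeometry
open Pool.Agent.H15.KS Pool.Agent.H62.KB

namespace Pool.Agent.H15.KI

universe u

theorem fin_all : T_FIN'.{u} := fin_of_mdx (Pool.Agent.H62.KI.pf_MDX Pool.Agent.H92.KI.pf_PNT)

theorem final : ∀ (A : Type u) [CommRing A] [IsDomain A] [IsDiscreteValuationRing A]
    [HenselianLocalRing A] [CharZero A] (p : ℕ), p.Prime → ∀ (π ε : A) (E : ℕ), Irreducible π →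
    IsUnit ε → (p : A) = ε * π ^ E →
    ∀ (X : Scheme.{u}) [IsNoetherian X] (f : X ⟶ Spec (CommRingCat.of A)) (e : ℕ)
      [SmoothOfRelativeDimension (e + 1) f], IsProjectiveOver f →
    ∀ T : Version (e + 1), T = naive (e + 1) ∨ T = improved (e + 1) → GerstenT T X →
    (∀ (Y Z : Scheme.{u}) (i : Z ⟶ Y), T.c Y ≫ T.res i =
        pull (MKF (e + 1)) i ≫ (pushF i).map (T.c Z) ∧
      ∀ q : ℕ, toQ T Y q ≫ resM T i q = redQ T i q ∧ (IsClosedImmersion i → ∀ k : ℕ,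
        resH T i q k ≫ pushH i (Q T Z q) k = onH (resM T i q) k)) ∧
    T.c X ≫ aug T X = top X (e + 1) ∧
    (∀ z : Cyc X e, IsConn (C X (e + 1)) (dC X (e + 1)) e (aug T X) (ZZ X)
      (ap (toH (C X (e + 1) 0)) z) (ap (cycT T X) z)) ∧ ∀ r : ℕ,
    (∀ n : ℕ, toCHq X e (p ^ r) ≫ resQ T f (p ^ r) n ≫
        pushH (thickι f n) (Q T (thick f n) (p ^ r)) (e + 1) =
      cycT T X ≫ onH (redQ T (thickι f n) (p ^ r)) (e + 1)) ∧
    ProIsoQ T f (p ^ r) ∧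
    (∀ n ≥ 1, Function.Surjective (ap (resQ T f (p ^ r) n))) ∧
    ∀ n ≥ 2 * (r * E) + 2, Function.Bijective (ap (resQ T f (p ^ r) n)) := by
  intro A _ _ _ _ _ p hp π ε E hπ hε hpE X _ f e _ hf T hT hG
  obtain ⟨h1, h2, h3⟩ := fin_all A p hp π ε E hπ hε hpE X f e hf T (good_of hT) (mono_of hT) hG
  refine ⟨fun Y Z i => ⟨(good_of hT).c_res i, fun q => ⟨Pool.Agent.H62.KI.toQ_resM T i q,
    fun hi k => Pool.Agent.H62.KI.resH_pushH T i hi.isClosedEmbedding q k⟩⟩, h1, h2, h3⟩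

end Pool.Agent.H15.KI

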