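import Pool.Agent.H15.KI.TargetsA

/-!
# KEW-I: both versions are good
-/

namespace Pool.Agent.H15.KI

open AlgebraicGeometry CategoryTheory CategoryTheory.Limits TopologicalSpace Opposite
open Pool.Agent.H15.KS Pool.Agent.H62.KB
open Pool.Agent.H84.KEW (LocSurjAt)

universe u

theorem good_naive (hP : T_PULL.{u}) (n : ℕ) : Good (naive.{u} n) where
  c_res {X Y} i := by
    refine (Category.id_comp (pull (MKF n) i)).trans ?_
    refine (Category.comp_id (pull (MKF n) i)).symm.trans ?_
    exact congrArg (pull (MKF n) i ≫ ·) ((pushF i).map_id (K Y n)).symm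
  res_comp {X Y Z} j i := hP.2.1 (MKF n) X Y Z j i
  inj X x _ := by
    intro U hx s hs
    exact ⟨U, le_rfl, hx, (congrArg (fun t => (K X n).obj.map (homOfLE le_rfl).op t)
      (show s = 0 from hs)).trans (map_zero _)⟩
  surj X x _ := by
    intro U hx s
    exact ⟨U, le_rfl, hx, (K X n).obj.map (homOfLE le_rfl).op s, rfl⟩
  epi _ X := inferInstanceAs (Epi (𝟙 (K X n)))

theorem pf_GOOD (hP : T_PULL.{u}) (hI : T_IMP.{u}) (hL : T_LOCC.{u}) : T_GOOD.{u} := by
  intro n
  refine ⟨good_naive hP n, ?_⟩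
  obtain ⟨h1, h2, h3, h4⟩ := hI n
  exact
    { c_res := fun {X Y} i => h4 X Y i
      res_comp := fun {X Y Z} j i => h3 X Y Z j i
      inj := fun X x hx => (hL.1 n X x hx).1
      surj := fun X x hx => (hL.1 n X x hx).2
      epi := by
        rintro rfl X
        exact hL.2 X }

end Pool.Agent.H15.KI
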