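import Pool.Agent.H15.KI.TargetsB
import Pool.Agent.H84.KSJ.HEX

/-!
# KEW-I: exactness outside the special fibre for a general resolution
-/

open CategoryTheory TopologicalSpace Opposite AlgebraicGeometry Limits
open Pool.Agent.H62.MK Pool.Agent.H84.KEW Pool.Agent.H19.KN
open Pool.Agent.H17.KW (kap Pts entry column dFam D dD AbSh IsRes isLocalHom_dFam)
open Pool.Agent.H12.KG (Sp GenSp kA stA rho projStr)
open Pool.Agent.H84.KSJ

universe u

namespace Pool.Agent.H15.KI

open Pool.Agent.H12.KSJ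

noncomputable section

/-- HEX for a general resolution. -/
theorem pf_HEX : T_HEXg.{u} := by
  intro A _ X _ f π e K t h x hx
  refine ⟨fun s hs g hg hd => ?_, fun g hg => ?_⟩
  · obtain ⟨F, hF⟩ := gen_of_locEx _ (isLocalHom_dFam X (e + 1) (s + 1)) _
      (isLocalHom_dFam X (e + 1) s) (locEx_of_exact (h.exact s hs) x) (exH f π (e + 1) (s + 1) g)
      (gen_dFam_exH f π (e + 1) s hx g hd)
    exact ⟨_, lift_hor f π (e + 1) (s + 1) g hg F hF⟩
  · have := h.epi
    obtain ⟨F, hF⟩ := @gen_of_epi X.toTopCat _ _ _ _ _ _ _ _ _ _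
      (isLocalHom_dFam X (e + 1) 0) h.epi x (exH f π (e + 1) 0 g)
    exact ⟨_, lift_hor f π (e + 1) 0 g hg F hF⟩

end

end Pool.Agent.H15.KI
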