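import Pool.Agent.H15.KI.TargetsB
import Pool.Agent.H92.KST.All
import Pool.Agent.H12.KG.Final

/-!
# KEW-I: injectivity for a general resolution
-/

open CategoryTheory TopologicalSpace Opposite AlgebraicGeometry Limits
open Pool.Agent.H62.MK Pool.Agent.H84.KEW Pool.Agent.H19.KN Pool.Agent.H12.KSJ
open Pool.Agent.H17.KW (kap Pts entry column dFam D dD topSh KSh redSh thick thickι Fsh AbSh
  IsRes Cyc toSec secH IsProjectiveOver ZSh isLocalHom_dFam)
open Pool.Agent.H12.KG (Sp GenSp kA stA rho projStr)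
open Pool.Agent.H15.KEW (pt KK PP data_PP coheight_le_of_smooth quasiSober_top hlast adjoin_one)
open Pool.Agent.H92.KST (ok_STARX ok_NAG)

universe u

namespace Pool.Agent.H15.KI

noncomputable section

variable {X : Scheme.{u}} {A : Type u} [CommRing A]

/-- The abstract chase for a general resolution. -/
theorem chase_g (hLD : T_LOCDDg.{u}) (hC : T_COK.{u}) [IsNoetherian X] [IsDomain A]
    [IsDiscreteValuationRing A] [CharZero A] (f : X ⟶ Spec (CommRingCat.of A))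
    [LocallyOfFiniteType f] (π : A) (hπ : Irreducible π) {q m : ℕ} {ε : A} (hε : IsUnit ε)
    (hq : (q : A) = ε * π ^ m) (hq1 : 1 ≤ q) (n : ℕ) (hn : 2 * m + 2 ≤ n) (e : ℕ)
    (hdim : ∀ x : X, Order.coheight x ≤ (e + 1 : ℕ) + 1) (hdim' : ∀ x : X, Order.coheight x ≤ e + 2)
    (μ : Md f π e q n)
    (hk : ∀ (U : Opens X.toTopCat) (c : μ.K.obj.obj (op U)), μ.ρ.hom.app (op U) c = 0 → ∀ x ∈ U,
      gen (pt X (e + 1) (e + 1)) (KK X (e + 1) (e + 1)) x
        (show (E (pt X (e + 1) (e + 1)) (KK X (e + 1) (e + 1))).sec U from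
          μ.t.hom.app (op U) c).1 ∈ PP f π q n (e + 1) (e + 1) x)
    (z : Cyc X (e + 1)) (hz : Sheaf.H.map μ.ρ (e + 1) (clMd μ z) = 0) :
    ∃ (J : Type u) (_ : Finite J) (V : J → Opens X.toTopCat)
      (h : J → Π₀ w : Pts X (e + 1) 1, KK X (e + 1) 1 w),
      (∀ x, ∃ a, x ∈ V a) ∧
      (∀ a, ∀ x ∈ V a, gen (pt X (e + 1) 0) (KK X (e + 1) 0) x
        (dFam X (e + 1) 0 (h a) - z) ∈ PP f π q n (e + 1) 0 x) ∧
      ∀ a b, ∀ x, x ∈ V a → x ∈ V b →
        gen (pt X (e + 1) 1) (KK X (e + 1) 1) x (h a - h b) ∈ PP f π q n (e + 1) 1 x := by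
  have := quasiSober_top X
  have h0 := data_PP ok_STARX ok_NAG f π hπ hε hq hq1 n hn e hdim
  have hdd := (hLD A X f π e μ.K μ.t μ.res).2.1
  let ρ₁ : μ.K ⟶ Abelian.image μ.ρ := Abelian.factorThruImage μ.ρ
  let j : Abelian.image μ.ρ ⟶ μ.F := Abelian.image.ι μ.ρ
  have hfac : ρ₁ ≫ j = μ.ρ := Abelian.image.fac μ.ρ
  have hE : Epi ρ₁ := inferInstanceAs (Epi (Abelian.factorThruImage μ.ρ))
  have hM : Mono j := inferInstanceAs (Mono (Abelian.image.ι μ.ρ))
  have hbij := hC A X f π e q n hdim' μ _ ρ₁ j hE hM hfac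
  have hz1 : Sheaf.H.map ρ₁ (e + 1) (clMd μ z) = 0 := by
    apply hbij.1
    rw [map_zero, ← Sheaf.H.map_comp_apply, hfac]
    exact hz
  have hk1 : ∀ (U : Opens X.toTopCat) (c : μ.K.obj.obj (op U)), ρ₁.hom.app (op U) c = 0 →
      ∀ x ∈ U, gen (pt X (e + 1) (e + 1)) (KK X (e + 1) (e + 1)) x
        (show (E (pt X (e + 1) (e + 1)) (KK X (e + 1) (e + 1))).sec U from
          μ.t.hom.app (op U) c).1 ∈ PP f π q n (e + 1) (e + 1) x := by
    intro U c hc x hx
    refine hk U c ?_ x hx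
    have h2 : μ.ρ.hom.app (op U) c = j.hom.app (op U) (ρ₁.hom.app (op U) c) :=
      congrArg (fun r : μ.K ⟶ μ.F => r.hom.app (op U) c) hfac.symm
    rw [h2, hc, map_zero]
  have h1 := abs_chase (X := X.toTopCat) (pt X (e + 1)) (KK X (e + 1)) (dFam X (e + 1))
    (fun s => isLocalHom_dFam X (e + 1) s) (fun s c => hdd s c)
    (fun s => PP f π q n (e + 1) s) h0 μ.res ρ₁ hk1
    (secH X (D X (e + 1) 0) (toSec X (e + 1) z)) hz1
  obtain ⟨J, hJ, V, g, g1, g2, g3⟩ := h1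
  refine ⟨J, hJ, V, g, g1, fun a x hx => ?_, g3⟩
  have h2 := g2 a x hx
  have h3 : Sheaf.H.equiv₀ (D X (e + 1) 0) (Limits.isTerminalTop (α := Opens X.toTopCat))
      (secH X (D X (e + 1) 0) (toSec X (e + 1) z)) = toSec X (e + 1) z :=
    AddEquiv.apply_symm_apply _ _
  have h4 := congrArg (fun t : (Pool.Agent.H84.KEW.E (X := X.toTopCat)
      (fun v : Pts X (e + 1) 0 => (v.1 : X)) (fun v => MilnorK (kap X v.1) 0)).sec ⊤ =>
        gen (pt X (e + 1) 0) (KK X (e + 1) 0) x (dFam X (e + 1) 0 (g a) - t.1)) h3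
  exact (congrArg (fun t => t ∈ PP f π q n (e + 1) 0 x) h4).mp h2

attribute [local instance] MvPolynomial.gradedAlgebra in
/-- INJ. -/
theorem pf_INJ (hLD : T_LOCDDg.{u}) (hK : T_KIL.{u}) (hC : T_COK.{u}) (hG : T_GSP.{u}) :
    T_INJg.{u} := by
  intro A _ _ _ _ _ p hp π ε E hπ hε hpE r n hr hn X _ f e _ hf μ z hz
  classical
  have hdim : ∀ x : X, Order.coheight x ≤ (e + 1 : ℕ) + 1 := coheight_le_of_smooth f (e + 1)
  have hdim' : ∀ x : X, Order.coheight x ≤ e + 2 := by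
    intro x
    refine (hdim x).trans (le_of_eq ?_)
    push_cast
    rw [add_assoc, one_add_one_eq_two]
  have hsm : Smooth f := SmoothOfRelativeDimension.smooth (n := e + 1) f
  have hlft : LocallyOfFiniteType f := inferInstance
  have hq : ((p ^ r : ℕ) : A) = ε ^ r * π ^ (r * E) := by
    rw [Nat.cast_pow, hpE, mul_pow, ← pow_mul, mul_comm E r]
  have hq1 : 1 ≤ p ^ r := Nat.one_le_pow _ _ hp.pos
  have hk := hK A X f π hπ (p ^ r) n e (by omega) (fun he => hG A X f π e hπ he) μ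
  obtain ⟨J, hJ, V, g, g1, g2, g3⟩ := chase_g hLD hC f π hπ (hε.pow r) hq hq1 n hn e hdim hdim'
    μ hk z hz
  clear hk hz
  clear μ
  obtain ⟨N, i, hi, hif⟩ := hf
  have hif' : f = i ≫ projStr (MvPolynomial.homogeneousSubmodule (Fin (N + 1)) A) := hif.symm
  subst hif'
  obtain ⟨h', c', hc'⟩ := hlast H12.KG.done_LAST (MvPolynomial.homogeneousSubmodule (Fin (N + 1)) A)
    (MvPolynomial.homogeneousSubmodule_fg (Fin (N + 1)) A 1) (adjoin_one A N) i hi π hπ p hp ε E r n hpE hε hr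
    (by omega) hdim J V g1 g z g2 g3
  exact ⟨h', c', hc'⟩

end

end Pool.Agent.H15.KI
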