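import Pool.Agent.H15.KI.TargetsB
import Pool.Agent.H84.KSJ.LOCDD

/-!
# KEW-I: the horizontal differential for a general resolution
-/

open CategoryTheory TopologicalSpace Opposite AlgebraicGeometry Limits
open Pool.Agent.H62.MK Pool.Agent.H84.KEW Pool.Agent.H19.KN
open Pool.Agent.H17.KW (kap Pts entry column dFam D dD AbSh IsRes isLocalHom_dFam)
open Pool.Agent.H12.KG (Sp GenSp kA stA rho projStr)
open Pool.Agent.H84.KSJ (dH_apply isLocalHom_dH dFam_exH_reH)

universe u

namespace Pool.Agent.H15.KI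

open Pool.Agent.H12.KSJ

noncomputable section

variable {X : Scheme.{u}}

/-- The differentials compose to zero. -/
theorem dd_zero_g [IsNoetherian X] {e : ℕ} {K : AbSh X} {t : K ⟶ D X (e + 1) (e + 1)}
    (h : IsRes (D X (e + 1)) (dD X (e + 1)) e t) (s : ℕ)
    (c : Π₀ v : Pts X (e + 1) (s + 2), MilnorK (kap X v.1) (s + 2)) :
    dFam X (e + 1) s (dFam X (e + 1) (s + 1) c) = 0 := by
  have h1 := h.w s
  let c' : (D X (e + 1) (s + 2)).obj.obj (op ⊤) :=
    show (E (X := X.toTopCat) (fun v : Pts X (e + 1) (s + 2) => (v.1 : X))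
      (fun v => MilnorK (kap X v.1) (s + 2))).sec ⊤ from ⟨c, fun _ hi => absurd trivial hi⟩
  have h2 := congrArg (fun r : D X (e + 1) (s + 2) ⟶ D X (e + 1) s => r.hom.app (op ⊤) c') h1
  have h3 := congrArg Subtype.val h2
  change keep (X := X.toTopCat) (fun v : Pts X (e + 1) s => (v.1 : X))
    (fun v => MilnorK (kap X v.1) s) ⊤ (dFam X (e + 1) s
    (keep (X := X.toTopCat) (fun v : Pts X (e + 1) (s + 1) => (v.1 : X))
    (fun v => MilnorK (kap X v.1) (s + 1)) ⊤ (dFam X (e + 1) (s + 1) c))) = 0 at h3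
  have h4 : ∀ (t : ℕ) (g : Π₀ v : Pts X (e + 1) t, MilnorK (kap X v.1) t),
      keep (X := X.toTopCat) (fun v : Pts X (e + 1) t => (v.1 : X))
        (fun v => MilnorK (kap X v.1) t) ⊤ g = g := by
    intro t g
    refine DFinsupp.ext fun i => ?_
    exact keep_apply_pos (X := X.toTopCat) (fun v : Pts X (e + 1) t => (v.1 : X)) g trivial
  rwa [h4, h4] at h3

/-- LOCDD for a general resolution. -/
theorem pf_LDD : T_LOCDDg.{u} := by
  intro A _ X _ f π e K t h
  refine ⟨fun s => isLocalHom_dH f π (e + 1) s, fun s g => dd_zero_g h s g, fun s g => ?_⟩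
  refine DFinsupp.ext fun v => ?_
  rw [dH_apply]
  change dFam X (e + 1) s (exH f π (e + 1) (s + 1) (reH f π (e + 1) (s + 1)
    (dFam X (e + 1) (s + 1) (exH f π (e + 1) (s + 2) g)))) v.1 = 0
  rw [dFam_exH_reH f π (e + 1) s _ v.1 v.2, dd_zero_g h]
  rfl

end

end Pool.Agent.H15.KI
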