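import Pool.Agent.H15.KI.TargetsB
import Pool.Agent.H14.KSJ.NSM

/-! Row NSM: symbols with a small entry are germs of the kernel, for a general resolution. -/

open CategoryTheory TopologicalSpace Opposite AlgebraicGeometry Limits
open Pool.Agent.H62.MK Pool.Agent.H84.KEW Pool.Agent.H19.KN Pool.Agent.H12.KSJ
open Pool.Agent.H17.KW (kap Pts entry column dFam D dD topSh KSh redSh thick thickι Fsh AbSh
  IsRes Cyc toSec secH IsProjectiveOver ZSh)
open Pool.Agent.H12.KG (Sp GenSp kA stA rho projStr)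

universe u

namespace Pool.Agent.H15.KI

noncomputable section

section

variable {X : Scheme.{u}} [IsNoetherian X] {A : Type u} [CommRing A] [IsLocalRing A]
  {f : X ⟶ Spec (CommRingCat.of A)} {π : A} {e q n : ℕ} (μ : Md f π e q n)

/-- The kernel of the restriction of Milnor K maps to the kernel of `ρ`. -/
def toNMd : NSh f q e n ⟶ NMd μ :=
  kernel.lift μ.ρ (kernel.ι (redSh (thickι f n) q (e + 1)) ≫ μ.c) (by
    rw [Category.assoc, μ.cρ, ← Category.assoc, kernel.condition, zero_comp])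

theorem toNMd_nuMd : toNMd μ ≫ nuMd μ = nuSh f π q e n := by
  unfold toNMd nuMd nuSh
  rw [kernel.lift_ι_assoc, Category.assoc, ← Category.assoc μ.c μ.t, μ.ct]

theorem nuG_le (y : X.toTopCat) : nuG f π q e n y ≤ nuGMd μ y := by
  rintro g ⟨W, hy, t, ht⟩
  refine ⟨W, hy, (toNMd μ).hom.app (op W) t, ?_⟩
  rw [← ht]
  have h := congrArg (fun φ => φ.hom.app (op W) t) (toNMd_nuMd μ)
  exact congrArg _ (congrArg Subtype.val h)

end

theorem pf_NSM : T_NSMg.{u} := by
  intro A _ _ _ X _ f π hπ e q n μ y c u b hu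
  obtain ⟨g, hg, h⟩ := Pool.Agent.H14.KSJ.pf_NSM A X f π hπ e q n y c u b hu
  exact ⟨g, nuG_le μ y hg, h⟩

end

end Pool.Agent.H15.KI
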