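import Pool.Agent.H15.KI.TargetsB
import Pool.Agent.H15.KS.Fin1
import Pool.Agent.H84.KB.S

/-!
# Project KEW-I: targets, the comparison of the layers
-/

open CategoryTheory TopologicalSpace Opposite AlgebraicGeometry Limits
open Pool.Agent.H15.KS Pool.Agent.H62.KB

universe u

namespace Pool.Agent.H15.KI

noncomputable section

/-- MDX: the data for the general resolution, from a good version. -/
def T_MDX : Prop :=
  ∀ (A : Type u) [CommRing A] [IsDomain A] [IsDiscreteValuationRing A] [HenselianLocalRing A]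
    [CharZero A] (X : Scheme.{u}) [IsNoetherian X] (f : X ⟶ Spec (CommRingCat.of A)) (π : A)
    (e q n : ℕ) [SmoothOfRelativeDimension (e + 1) f], Irreducible π →
    ∀ T : Version.{u} (e + 1), Good T → GerstenT T X → T.c X ≫ aug T X = top X (e + 1) →
    ∃ (μ : Md f π e q n) (a : T.S X ≅ μ.K) (b : push (thickι f n) (Q T (thick f n) q) ≅ μ.F),
      aug T X ≫ (Pool.Agent.H84.KB.isoC X (e + 1) (e + 1)).hom = a.hom ≫ μ.t ∧
      redQ T (thickι f n) q ≫ b.hom = a.hom ≫ μ.ρ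

/-- CYC: the class of a cycle. -/
def T_CYC : Prop :=
  ∀ (X : Scheme.{u}) [IsNoetherian X] (e : ℕ) (T : Version.{u} (e + 1)), GerstenT T X →
    (∀ z : Cyc X e, IsConn (C X (e + 1)) (dC X (e + 1)) e (aug T X) (ZZ X)
      (ap (toH (C X (e + 1) 0)) z) (ap (cycT T X) z)) ∧
    ∀ (K : AbSh X) (t : K ⟶ Pool.Agent.H17.KW.D X (e + 1) (e + 1))
      (h : Pool.Agent.H17.KW.IsRes (Pool.Agent.H17.KW.D X (e + 1))
        (Pool.Agent.H17.KW.dD X (e + 1)) e t) (a : T.S X ≅ K),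
      aug T X ≫ (Pool.Agent.H84.KB.isoC X (e + 1) (e + 1)).hom = a.hom ≫ t →
      ∀ z : Cyc X e, ap (onH a.hom (e + 1)) (ap (cycT T X) z) =
        Pool.Agent.H17.KW.IsRes.cyc h (Pool.Agent.H17.KW.ZSh X)
          (Pool.Agent.H17.KW.secH X (Pool.Agent.H17.KW.D X (e + 1) 0)
            (Pool.Agent.H17.KW.toSec X (e + 1) (famC z)))

/-- TRN: the transition maps. -/
def T_TRN : Prop :=
  ∀ (A : Type u) [CommRing A] [IsLocalRing A] (X : Scheme.{u}) [IsNoetherian X]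
    (f : X ⟶ Spec (CommRingCat.of A)) (e q : ℕ) (T : Version.{u} (e + 1)), Good T →
    ∀ (n m : ℕ), n ≤ m → ∃ j : thick f n ⟶ thick f m, j ≫ thickι f m = thickι f n ∧
    (toQ T (thick f m) q ≫ resM T j q = redQ T j q) ∧
    (resH T j q (e + 1) ≫ pushH j (Q T (thick f n) q) (e + 1) = onH (resM T j q) (e + 1)) ∧
    ∀ (g : CHq X e q ⟶ H (Q T (thick f m) q) (e + 1))
      (g' : CHq X e q ⟶ H (Q T (thick f n) q) (e + 1)),
      toCHq X e q ≫ g ≫ pushH (thickι f m) (Q T (thick f m) q) (e + 1) =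
        cycT T X ≫ onH (redQ T (thickι f m) q) (e + 1) →
      toCHq X e q ≫ g' ≫ pushH (thickι f n) (Q T (thick f n) q) (e + 1) =
        cycT T X ≫ onH (redQ T (thickι f n) q) (e + 1) →
      g ≫ resH T j q (e + 1) = g'

/-- The conclusion. -/
def T_FIN : Prop :=
  ∀ (A : Type u) [CommRing A] [IsDomain A] [IsDiscreteValuationRing A]
    [HenselianLocalRing A] [CharZero A] (p : ℕ), p.Prime → ∀ (π ε : A) (E : ℕ), Irreducible π →
    IsUnit ε → (p : A) = ε * π ^ E →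
    ∀ (X : Scheme.{u}) [IsNoetherian X] (f : X ⟶ Spec (CommRingCat.of A)) (e : ℕ)
      [SmoothOfRelativeDimension (e + 1) f], IsProjectiveOver f →
    ∀ T : Version.{u} (e + 1), Good T → GerstenT T X →
    T.c X ≫ aug T X = top X (e + 1) ∧
    (∀ z : Cyc X e, IsConn (C X (e + 1)) (dC X (e + 1)) e (aug T X) (ZZ X)
      (ap (toH (C X (e + 1) 0)) z) (ap (cycT T X) z)) ∧ ∀ r : ℕ,
    (∀ n : ℕ, toCHq X e (p ^ r) ≫ resQ T f (p ^ r) n ≫
        pushH (thickι f n) (Q T (thick f n) (p ^ r)) (e + 1) =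
      cycT T X ≫ onH (redQ T (thickι f n) (p ^ r)) (e + 1)) ∧
    ProIsoQ T f (p ^ r) ∧
    (∀ n ≥ 1, Function.Surjective (ap (resQ T f (p ^ r) n))) ∧
    ∀ n ≥ 2 * (r * E) + 2, Function.Bijective (ap (resQ T f (p ^ r) n))

end

end Pool.Agent.H15.KI
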