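import Pool.Agent.H15.KI.FIN
import Pool.Agent.H15.KI.INJ
import Pool.Agent.H15.KI.GOOD
import Pool.Agent.H15.KI.HEX
import Pool.Agent.H15.KI.LDD
import Pool.Agent.H15.KI.NSM
import Pool.Agent.H12.KI.CYC
import Pool.Agent.H12.KI.KV
import Pool.Agent.H12.KI.SUR
import Pool.Agent.H19.KI.COK
import Pool.Agent.H19.KI.GSP
import Pool.Agent.H19.KI.NAGC
import Pool.Agent.H19.KI.NQX
import Pool.Agent.H19.KI.SMT
import Pool.Agent.H30.KI.K1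
import Pool.Agent.H33.KI.ALG
import Pool.Agent.H33.KI.GERM
import Pool.Agent.H33.KI.PTS
import Pool.Agent.H62.KI.IMP
import Pool.Agent.H62.KI.PULL
import Pool.Agent.H62.KI.TRN
import Pool.Agent.H75.KI.COL

/-!
# Project KEW-I: the assembly, first part
-/

namespace Pool.Agent.H15.KI

universe u

theorem alg_ok : T_ALG.{u} := Pool.Agent.H33.KI.pf_ALG Pool.Agent.H33.KI.pf_PTS
  Pool.Agent.H33.KI.pf_GERM

theorem smt_ok : T_SMTg.{u} := Pool.Agent.H19.KI.pf_SMT pf_NSM Pool.Agent.H19.KI.pf_NQX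

theorem kv_ok (hN : T_NUXg.{u}) : T_KVg.{u} := Pool.Agent.H12.KI.pf_KV pf_LDD pf_HEX hN smt_ok

theorem good_ok (hL : T_LOCC.{u}) : T_GOOD.{u} :=
  pf_GOOD Pool.Agent.H62.KI.pf_PULL (Pool.Agent.H62.KI.pf_IMP Pool.Agent.H62.KI.pf_PULL) hL

theorem fin_ok (hA : T_AUG.{u}) (hM : T_MDX.{u}) (hP : T_PNT.{u}) (hK : T_KIL.{u})
    (hN : T_NUXg.{u}) : T_FIN.{u} :=
  pf_FIN hA Pool.Agent.H19.KI.pf_GNP hM Pool.Agent.H12.KI.pf_CYC Pool.Agent.H62.KI.pf_TRN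
    (Pool.Agent.H12.KI.pf_SUR (kv_ok hN) (Pool.Agent.H19.KI.pf_COK hP))
    (pf_INJ pf_LDD hK (Pool.Agent.H19.KI.pf_COK hP) Pool.Agent.H19.KI.pf_GSP)

end Pool.Agent.H15.KI
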