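import Pool.Agent.H15.KI.FIN0
import Pool.Agent.H15.KI.TargetsD

/-!
# KEW-I: the conclusion
-/

open CategoryTheory TopologicalSpace Opposite AlgebraicGeometry Limits
open Pool.Agent.H15.KS Pool.Agent.H62.KB

universe u

namespace Pool.Agent.H15.KI

noncomputable section

/-- FIN. -/
theorem pf_FIN' (hAUG : T_AUG.{u}) (hGNP : T_GNP.{u}) (hMDX : T_MDX'.{u}) (hCYC : T_CYC.{u})
    (hTRN : T_TRN.{u}) (hSUR : T_SURg.{u}) (hINJ : T_INJg.{u}) : T_FIN'.{u} := by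
  intro A _ _ _ _ _ p hp π ε E hπ hε hpE X _ f e _ hf T hT hmono hG
  have haug : T.c X ≫ aug T X = top X (e + 1) := by
    refine hAUG e T hT X fun v => ?_
    refine hGNP A X f e v.pt ?_
    have hv := v.2
    have h1 : Order.coheight v.1 + ((e + 1 : ℕ) : ℕ∞) = 0 + ((e + 1 : ℕ) : ℕ∞) := by
      rw [zero_add]
      exact hv
    exact WithTop.add_right_cancel (ENat.natCast_ne_top (e + 1)) h1
  obtain ⟨hc1, hc2⟩ := hCYC X e T hG
  refine ⟨haug, hc1, fun r => ?_⟩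
  have hf' : H17.KW.IsProjectiveOver f := projective_old hf
  have key : ∀ n : ℕ, ∃ (μ : Md f π e (p ^ r) n) (a : T.S X ≅ μ.K)
      (b : push (thickι f n) (Q T (thick f n) (p ^ r)) ≅ μ.F),
      redQ T (thickι f n) (p ^ r) ≫ b.hom = a.hom ≫ μ.ρ ∧
      ∀ z : Cyc X e, ap (onH a.hom (e + 1)) (ap (cycT T X) z) = clMd μ (famC z) := by
    intro n
    obtain ⟨μ, a, b, h1, h2⟩ := hMDX A X f π e (p ^ r) n hπ T hT hmono hG haug
    exact ⟨μ, a, b, h2, fun z => hc2 μ.K μ.t μ.res a h1 z⟩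
  have hspec : ∀ n : ℕ, toCHq X e (p ^ r) ≫ resQ T f (p ^ r) n ≫
      pushH (thickι f n) (Q T (thick f n) (p ^ r)) (e + 1) =
        cycT T X ≫ onH (redQ T (thickι f n) (p ^ r)) (e + 1) := by
    intro n
    obtain ⟨μ, a, b, h1, h2⟩ := key n
    exact resQ_spec T μ a b h1 h2
  have hS : ∀ n ≥ 1, Function.Surjective (ap (resQ T f (p ^ r) n)) := by
    intro n hn
    obtain ⟨μ, a, b, h1, h2⟩ := key n
    exact resQ_surjective T μ a b h1 h2
      (hSUR A X f π e (p ^ r) n hπ hf' (Nat.one_le_pow _ _ hp.pos) hn μ)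
  have hI : ∀ n ≥ 2 * (r * E) + 2, Function.Injective (ap (resQ T f (p ^ r) n)) := by
    intro n hn
    obtain ⟨μ, a, b, h1, h2⟩ := key n
    refine resQ_injective T μ a b h1 h2 fun z hz => ?_
    rcases Nat.eq_zero_or_pos r with rfl | hr
    · exact ⟨0, z, by rw [map_zero, pow_zero, one_smul, zero_add]⟩
    · exact hINJ A p hp π ε E hπ hε hpE r n hr hn X f e hf' μ z hz
  have hB : ∀ n ≥ 2 * (r * E) + 2, Function.Bijective (ap (resQ T f (p ^ r) n)) := fun n hn =>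
    ⟨hI n hn, hS n (by omega)⟩
  refine ⟨hspec, ?_, hS, hB⟩
  intro n
  obtain ⟨j, hj, -, -, hj3⟩ := hTRN A X f e (p ^ r) T hT n (max n (2 * (r * E) + 2))
    (le_max_left _ _)
  have hi : IsIso (resQ T f (p ^ r) (max n (2 * (r * E) + 2))) :=
    (ConcreteCategory.isIso_iff_bijective _).mpr (hB _ (le_max_right _ _))
  refine ⟨max n (2 * (r * E) + 2), le_max_left _ _, j, inv (resQ T f (p ^ r) _), hj, ?_,
    IsIso.hom_inv_id _⟩
  rw [IsIso.inv_comp_eq]
  exact (hj3 _ _ (hspec _) (hspec n)).symm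

end

end Pool.Agent.H15.KI
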