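import Pool.Agent.H15.KI.All0
import Pool.Agent.H15.KI.FIN2
import Pool.Agent.H12.KI.AUG
import Pool.Agent.H19.KI.NUX
import Pool.Agent.H30.KI.LOCC
import Pool.Agent.H62.KI.MONO
import Pool.Agent.H92.KI.KIL
import Pool.Agent.H92.KI.PNT

/-!
# Project KEW-I: the assembly, second part
-/

open CategoryTheory AlgebraicGeometry

namespace Pool.Agent.H15.KI

universe u

theorem imp_ok : T_IMP.{u} := Pool.Agent.H62.KI.pf_IMP Pool.Agent.H62.KI.pf_PULL

theorem locc_ok : T_LOCC.{u} := Pool.Agent.H30.KI.pf_LOCC Pool.Agent.H75.KI.pf_COL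
  Pool.Agent.H19.KI.pf_NAGC alg_ok Pool.Agent.H30.KI.pf_K1 imp_ok

theorem good : T_GOOD.{u} := good_ok locc_ok

theorem cok_ok : T_COK.{u} := Pool.Agent.H19.KI.pf_COK Pool.Agent.H92.KI.pf_PNT

theorem inj_ok : T_INJg.{u} := pf_INJ pf_LDD Pool.Agent.H92.KI.pf_KIL cok_ok
  Pool.Agent.H19.KI.pf_GSP

theorem sur_ok : T_SURg.{u} := Pool.Agent.H12.KI.pf_SUR (kv_ok Pool.Agent.H19.KI.pf_NUX) cok_ok

theorem fin_of_mdx (hM : T_MDX'.{u}) : T_FIN'.{u} :=
  pf_FIN' Pool.Agent.H12.KI.pf_AUG Pool.Agent.H19.KI.pf_GNP hM Pool.Agent.H12.KI.pf_CYC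
    Pool.Agent.H62.KI.pf_TRN sur_ok inj_ok

/-- Both versions are good. -/
theorem good_of {n : ℕ} {T : Version.{u} n} (h : T = naive n ∨ T = improved n) : Good T := by
  rcases h with rfl | rfl
  · exact (good n).1
  · exact (good n).2

/-- The comparison map is injective in degree one. -/
theorem mono_of {e : ℕ} {T : Version.{u} (e + 1)} (h : T = naive (e + 1) ∨ T = improved (e + 1))
    (he : e = 0) (Y : Scheme.{u}) : Mono (T.c Y) := by
  subst he
  rcases h with rfl | rfl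
  · exact inferInstanceAs (Mono (𝟙 _))
  · exact Pool.Agent.H62.KI.pf_MONO Y

end Pool.Agent.H15.KI
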