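import Pool.Agent.H15.KI.All
import Pool.Agent.H15.KI.AUGU

/-!
# Project KEW-I: the assembly
-/

open CategoryTheory AlgebraicGeometry
open Pool.Agent.H15.KS Pool.Agent.H62.KB

namespace Pool.Agent.H15.KI

universe u

theorem final2 : ∀ (A : Type u) [CommRing A] [IsDomain A] [IsDiscreteValuationRing A]
    [HenselianLocalRing A] [CharZero A] (p : ℕ), p.Prime → ∀ (π ε : A) (E : ℕ), Irreducible π →
    IsUnit ε → (p : A) = ε * π ^ E →
    ∀ (X : Scheme.{u}) [IsNoetherian X] (f : X ⟶ Spec (CommRingCat.of A)) (e : ℕ)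
      [SmoothOfRelativeDimension (e + 1) f], IsProjectiveOver f →
    ∀ T : Version (e + 1), T = naive (e + 1) ∨ T = improved (e + 1) → GerstenT T X →
    (∀ (Y Z : Scheme.{u}) (i : Z ⟶ Y),
      (improved (e + 1)).c Y ≫ inKI (e + 1) Y = onSh (k0 (e + 1)) Y ∧
      (improved (e + 1)).res i ≫ (pushF i).map (inKI (e + 1) Z) =
        inKI (e + 1) Y ≫ pull (NagF ⋙ MKF (e + 1)) i ∧
      T.c Y ≫ T.res i = pull (MKF (e + 1)) i ≫ (pushF i).map (T.c Z) ∧
      ∀ q : ℕ, toQ T Y q ≫ resM T i q = redQ T i q ∧ (IsClosedImmersion i → ∀ k : ℕ,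
        resH T i q k ≫ pushH i (Q T Z q) k = onH (resM T i q) k)) ∧
    (∀ g : T.S X ⟶ C X (e + 1) (e + 1), T.c X ≫ g = top X (e + 1) ↔ g = aug T X) ∧
    (∀ z : Cyc X e, IsConn (C X (e + 1)) (dC X (e + 1)) e (aug T X) (ZZ X)
      (ap (toH (C X (e + 1) 0)) z) (ap (cycT T X) z)) ∧ ∀ r : ℕ,
    (∀ n : ℕ, toCHq X e (p ^ r) ≫ resQ T f (p ^ r) n ≫
        pushH (thickι f n) (Q T (thick f n) (p ^ r)) (e + 1) =
      cycT T X ≫ onH (redQ T (thickι f n) (p ^ r)) (e + 1)) ∧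
    ProIsoQ T f (p ^ r) ∧
    (∀ n ≥ 1, Function.Surjective (ap (resQ T f (p ^ r) n))) ∧
    ∀ n ≥ 2 * (r * E) + 2, Function.Bijective (ap (resQ T f (p ^ r) n)) := by
  intro A _ _ _ _ _ p hp π ε E hπ hε hpE X _ f e _ hf T hT hG
  obtain ⟨h1, h2, h3⟩ := fin_all A p hp π ε E hπ hε hpE X f e hf T (good_of hT) (mono_of hT) hG
  have hinf : ∀ v : Pt X (e + 1) (e + 1),
      Infinite (IsLocalRing.ResidueField (X.presheaf.stalk v.pt)) := by
    intro v
    refine Pool.Agent.H19.KI.pf_GNP A X f e v.pt ?_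
    have hv := v.2
    have h1 : Order.coheight v.1 + ((e + 1 : ℕ) : ℕ∞) = 0 + ((e + 1 : ℕ) : ℕ∞) := by
      rw [zero_add]
      exact hv
    exact WithTop.add_right_cancel (ENat.natCast_ne_top (e + 1)) h1
  refine ⟨fun Y Z i => ⟨Pool.Agent.H62.KI.improved_c (e + 1) Y,
    Pool.Agent.H62.KI.improved_res (e + 1) i, (good_of hT).c_res i, fun q =>
      ⟨Pool.Agent.H62.KI.toQ_resM T i q, fun hi k =>
        Pool.Agent.H62.KI.resH_pushH T i hi.isClosedEmbedding q k⟩⟩, fun g => ⟨fun hg => ?_, ?_⟩,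
    h2, h3⟩
  · exact aug_unique (good_of hT) X hinf g (aug T X) (hg.trans h1.symm)
  · rintro rfl
    exact h1

end Pool.Agent.H15.KI
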