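import Pool.Agent.H62.KB.PDefs

/-!
# The improved Milnor K-sheaf and the restriction map: definitions
-/

namespace Pool.Agent.H15.KI

open AlgebraicGeometry CategoryTheory CategoryTheory.Limits TopologicalSpace Opposite Polynomial
open Pool.Agent.H15.KS Pool.Agent.H62.KB

universe u v w

noncomputable section

/-! ### The rings `R(t)` -/

section ring

variable (R : Type u) [CommRing R]

/-- The polynomials whose coefficients generate the unit ideal. -/
def cont : Submonoid R[X] where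
  carrier := {P | P.contentIdeal = ⊤}
  one_mem' := contentIdeal_one
  mul_mem' ha hb := contentIdeal_mul_eq_top_of_contentIdeal_eq_top ha hb

/-- The ring `R(t)`: the localization of `R[t]` at the polynomials whose coefficients generate the
unit ideal. -/
def Nag : CommRingCat.{u} := CommRingCat.of (Localization (cont R))

/-- The homomorphism `R[t] → R(t)`. -/
def pol : R[X] →+* Nag R := algebraMap R[X] (Localization (cont R))

/-- The homomorphism `R → R(t)`. -/
def toNag : R →+* Nag R := (pol R).comp C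

variable {R} in
theorem map_mem_cont {S : Type u} [CommRing S] (f : R →+* S) {P : R[X]} (h : P ∈ cont R) :
    P.map f ∈ cont S := by
  show (P.map f).contentIdeal = ⊤
  rw [contentIdeal_map_eq_map_contentIdeal, show P.contentIdeal = ⊤ from h, Ideal.map_top]

variable {R} in
/-- The homomorphism `R(t) → S(t)`. -/
def nagMap {S : Type u} [CommRing S] (f : R →+* S) : Nag R →+* Nag S :=
  IsLocalization.map (M := cont R) (S := Localization (cont R)) (T := cont S)
    (Localization (cont S)) (mapRingHom f) (fun _ h => map_mem_cont f h)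

variable {R} in
theorem nagMap_pol {S : Type u} [CommRing S] (f : R →+* S) (P : R[X]) :
    nagMap f (pol R P) = pol S (P.map f) := by
  have h : cont R ≤ (cont S).comap (mapRingHom f) := fun _ h => map_mem_cont f h
  have h1 : IsLocalization.map (M := cont R) (S := Localization (cont R)) (T := cont S)
      (Localization (cont S)) (mapRingHom f) h (algebraMap R[X] (Localization (cont R)) P) =
      algebraMap S[X] (Localization (cont S)) (mapRingHom f P) :=
    IsLocalization.map_eq h P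
  exact h1

variable {R} in
theorem nag_ext {S : Type u} [CommRing S] {f g : Nag R →+* S}
    (h : ∀ P : R[X], f (pol R P) = g (pol R P)) : f = g :=
  IsLocalization.ringHom_ext (S := Localization (cont R)) (cont R) (RingHom.ext h)

end ring

/-- The functor `R ↦ R(t)`. -/
def NagF : CommRingCat.{u} ⥤ CommRingCat.{u} where
  obj R := Nag R
  map f := CommRingCat.ofHom (nagMap f.hom)
  map_id R := CommRingCat.hom_ext (nag_ext fun P => by
    refine (nagMap_pol (RingHom.id R) P).trans ?_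
    exact congrArg (pol R) Polynomial.map_id)
  map_comp {R S T} f g := CommRingCat.hom_ext (nag_ext fun P => by
    refine (nagMap_pol (g.hom.comp f.hom) P).trans ?_
    refine (congrArg (pol T) (Polynomial.map_map f.hom g.hom P)).symm.trans ?_
    refine (nagMap_pol g.hom (P.map f.hom)).symm.trans ?_
    exact congrArg (nagMap g.hom) (nagMap_pol f.hom P).symm)

/-- The natural homomorphism `R → R(t)`. -/
def ιF : 𝟭 CommRingCat.{u} ⟶ NagF where
  app R := CommRingCat.ofHom (toNag R)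
  naturality {R S} f := CommRingCat.hom_ext (RingHom.ext fun a => by
    refine Eq.trans ?_ (nagMap_pol f.hom (C a)).symm
    exact congrArg (pol S) (Polynomial.map_C f.hom).symm)

/-- The natural homomorphism `K_n(R) → K_n(R(t))`. -/
def k0 (n : ℕ) : MKF n ⟶ NagF ⋙ MKF n := Functor.whiskerRight ιF (MKF n)

/-- The natural homomorphism `K_n(R(t₁)) → K_n(R(t₁)(t₂))` of `R(t₁) → R(t₁)(t₂)`, `t₁ ↦ t₁`. -/
def k1 (n : ℕ) : NagF ⋙ MKF n ⟶ NagF ⋙ NagF ⋙ MKF n := Functor.whiskerLeft NagF (k0 n)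

/-- The natural homomorphism `K_n(R(t₁)) → K_n(R(t₁)(t₂))` of `R(t₁) → R(t₁)(t₂)`, `t₁ ↦ t₂`. -/
def k2 (n : ℕ) : NagF ⋙ MKF n ⟶ NagF ⋙ NagF ⋙ MKF n :=
  Functor.whiskerRight (Functor.whiskerRight ιF NagF) (MKF n)

/-! ### Abelian categories -/

section abelian

variable {𝒜 : Type v} [Category.{w} 𝒜] [Abelian 𝒜]

/-- The equalizer of two morphisms. -/
def eqz {A B : 𝒜} (f g : A ⟶ B) : 𝒜 := kernel (f - g)

/-- The inclusion of the equalizer. -/
def eqι {A B : 𝒜} (f g : A ⟶ B) : eqz f g ⟶ A := kernel.ι (f - g)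

/-- The quotient `A / q`. -/
def mdq (A : 𝒜) (q : ℕ) : 𝒜 := cokernel (q • 𝟙 A)

/-- The projection `A ⟶ A / q`. -/
def toMdq (A : 𝒜) (q : ℕ) : A ⟶ mdq A q := cokernel.π (q • 𝟙 A)

end abelian

/-! ### Sheaves given by functors on rings -/

/-- The sheaf associated with the presheaf `U ↦ Φ(O(U))`. -/
def Sh (Φ : CommRingCat.{u} ⥤ AddCommGrpCat.{u}) (X : Scheme.{u}) : AbSh X :=
  shf (X.presheaf ⋙ Φ)

/-- The morphism of a natural transformation. -/
def onSh {Φ Ψ : CommRingCat.{u} ⥤ AddCommGrpCat.{u}} (α : Φ ⟶ Ψ) (X : Scheme.{u}) :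
    Sh Φ X ⟶ Sh Ψ X :=
  (presheafToSheaf (Opens.grothendieckTopology X) AddCommGrpCat.{u}).map
    (Functor.whiskerLeft X.presheaf α)

/-- The morphism given by the homomorphisms `Φ(O_X(U)) → Φ(O_Y(i⁻¹ U))`, for `i : Y ⟶ X`. -/
def pull (Φ : CommRingCat.{u} ⥤ AddCommGrpCat.{u}) {X Y : Scheme.{u}} (i : Y ⟶ X) :
    Sh Φ X ⟶ push i (Sh Φ Y) :=
  the fun g => ∀ (U : X.Opens) (a : Φ.obj Γ(X, U)),
    ap (onSecs g U) (ap (toShf (X.presheaf ⋙ Φ) U) a) =
      ap (toShf (Y.presheaf ⋙ Φ) (i ⁻¹ᵁ U)) (ap (Φ.map (i.app U)) a)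

/-! ### The improved Milnor K-sheaf -/

/-- Kerz's improved Milnor K-sheaf `K^M_{n,X}`: the equalizer of the two maps from the sheaf of
`U ↦ K_n(O(U)(t₁))` to the sheaf of `U ↦ K_n(O(U)(t₁)(t₂))`. -/
def KI (n : ℕ) (X : Scheme.{u}) : AbSh X := eqz (onSh (k1 n) X) (onSh (k2 n) X)

/-- The inclusion in the sheaf of `U ↦ K_n(O(U)(t))`. -/
def inKI (n : ℕ) (X : Scheme.{u}) : KI n X ⟶ Sh (NagF ⋙ MKF n) X :=
  eqι (onSh (k1 n) X) (onSh (k2 n) X)

/-- A version of the Milnor K-sheaf: a sheaf on every scheme, with restriction maps, and with a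
morphism from the sheaf `K^M_{n,X}` associated with `U ↦ K_n(O(U))`. -/
structure Version (n : ℕ) where
  /-- the sheaf -/
  S : ∀ X : Scheme.{u}, AbSh X
  /-- the restriction maps -/
  res : ∀ {X Y : Scheme.{u}} (i : Y ⟶ X), S X ⟶ push i (S Y)
  /-- the comparison -/
  c : ∀ X : Scheme.{u}, K X n ⟶ S X

/-- The sheaf `K^M_{n,X}` associated with `U ↦ K_n(O(U))`. -/
def naive (n : ℕ) : Version.{u} n where
  S X := K X n
  res i := pull (MKF n) i
  c X := 𝟙 (K X n)

/-- Kerz's improved Milnor K-sheaf. -/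
def improved (n : ℕ) : Version.{u} n where
  S X := KI n X
  res {X Y} i := the fun g => g ≫ (pushF i).map (inKI n Y) = inKI n X ≫ pull (NagF ⋙ MKF n) i
  c X := the fun g => g ≫ inKI n X = onSh (k0 n) X

/-! ### The Gersten complex and the restriction map -/

section restriction

variable {e : ℕ} (T : Version.{u} (e + 1))

/-- The quotient of the sheaf by `q`. -/
def Q (X : Scheme.{u}) (q : ℕ) : AbSh X := mdq (T.S X) q

/-- The projection. -/
def toQ (X : Scheme.{u}) (q : ℕ) : T.S X ⟶ Q T X q := toMdq (T.S X) q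

/-- The reduction `T_X ⟶ i_* (T_Y / q)` for a morphism `i : Y ⟶ X`. -/
def redQ {X Y : Scheme.{u}} (i : Y ⟶ X) (q : ℕ) : T.S X ⟶ push i (Q T Y q) :=
  T.res i ≫ (pushF i).map (toQ T Y q)

/-- The reduction `T_X / q ⟶ i_* (T_Y / q)` for a morphism `i : Y ⟶ X`. -/
def resM {X Y : Scheme.{u}} (i : Y ⟶ X) (q : ℕ) : Q T X q ⟶ push i (Q T Y q) :=
  the fun g => toQ T X q ≫ g = redQ T i q

/-- The restriction `H^k(X, T_X / q) ⟶ H^k(Y, T_Y / q)` for a morphism `i : Y ⟶ X` (if
`H^k(Y, -) ⟶ H^k(X, i_* (-))` is an isomorphism). -/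
def resH {X Y : Scheme.{u}} (i : Y ⟶ X) (q k : ℕ) : H (Q T X q) k ⟶ H (Q T Y q) k :=
  the fun g => g ≫ pushH i (Q T Y q) k = onH (resM T i q) k

section gersten

variable (X : Scheme.{u}) [IsNoetherian X]

/-- The map to the first term of the Gersten complex: THE extension of the map on the sheaf
`K^M_{e+1,X}`. -/
def aug : T.S X ⟶ C X (e + 1) (e + 1) := the fun g => T.c X ≫ g = top X (e + 1)

/-- The Gersten conjecture: the Gersten complex
`0 ⟶ T_X ⟶ C^0 ⟶ C^1 ⟶ … ⟶ C^(e+1) ⟶ 0` is exact. -/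
def GerstenT : Prop := IsRes (C X (e + 1)) (dC X (e + 1)) e (aug T X)

/-- The homomorphism from the group of cycles to `H^(e+1)(X, T_X)`. -/
def cycT : Cyc X e ⟶ H (T.S X) (e + 1) :=
  the fun g => ∀ z, IsConn (C X (e + 1)) (dC X (e + 1)) e (aug T X) (ZZ X)
    (ap (toH (C X (e + 1) 0)) z) (ap g z)

end gersten

variable {A : Type u} [CommRing A] [IsLocalRing A] {X : Scheme.{u}} [IsNoetherian X]
  (f : X ⟶ Spec (CommRingCat.of A))

/-- The restriction map `CH^(e+1)(X) / q ⟶ H^(e+1)(X_n, T_{X_n} / q)`. -/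
def resQ (q n : ℕ) : CHq X e q ⟶ H (Q T (thick f n) q) (e + 1) :=
  the fun g => toCHq X e q ≫ g ≫ pushH (thickι f n) (Q T (thick f n) q) (e + 1) =
    cycT T X ≫ onH (redQ T (thickι f n) q) (e + 1)

/-- The restriction maps are an isomorphism in the category of pro-objects, from the constant
pro-object `CH^(e+1)(X) / q` to the pro-object of the groups `H^(e+1)(X_n, T_{X_n} / q)` (`j` is
the closed immersion `X_n ⟶ X_m`). -/
def ProIsoQ (q : ℕ) : Prop :=
  ∀ n : ℕ, ∃ m ≥ n, ∃ (j : thick f n ⟶ thick f m)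
    (g : H (Q T (thick f m) q) (e + 1) ⟶ CHq X e q),
    j ≫ thickι f m = thickι f n ∧ g ≫ resQ T f q n = resH T j q (e + 1) ∧
      resQ T f q m ≫ g = 𝟙 _

end restriction

end

end Pool.Agent.H15.KI
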