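import Pool.Agent.H15.KI.TargetsC
import Pool.Agent.H15.KS.Fin2
import Pool.Agent.H62.KB.P

/-!
# KEW-I: the restriction map of a version in terms of a general resolution
-/

open CategoryTheory TopologicalSpace Opposite AlgebraicGeometry Limits
open Pool.Agent.H15.KS Pool.Agent.H62.KB

universe u

namespace Pool.Agent.H15.KI

noncomputable section

variable {A : Type u} [CommRing A] [IsLocalRing A] {X : Scheme.{u}} [IsNoetherian X]
  {f : X ⟶ Spec (CommRingCat.of A)} {π : A} {e q n : ℕ}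

/-- The class of a divisor is zero. -/
lemma clMd_dFam (μ : Md f π e q n)
    (c : Π₀ v : H17.KW.Pts X (e + 1) (0 + 1), H62.MK.MilnorK (H17.KW.kap X v.1) (0 + 1)) :
    clMd μ (H17.KW.dFam X (e + 1) 0 c) = 0 := by
  have h1 : (H17.KW.toSec X (e + 1) (H17.KW.dFam X (e + 1) 0 c) :
      (H17.KW.D X (e + 1) 0).obj.obj (op ⊤)) =
      (H17.KW.dD X (e + 1) 0).hom.app (op ⊤) (H17.KW.toSec1 c) := by
    refine Subtype.ext ?_
    refine DFinsupp.ext fun i => ?_
    exact (H84.KEW.keep_apply_pos (X := X.toTopCat) (fun v : H17.KW.Pts X (e + 1) 0 => (v.1 : X)) _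
      (Opens.mem_top i.1)).symm
  have h2 := Sheaf.H.equiv₀_symm_naturality (T := (⊤ : Opens X.toTopCat)) isTerminalTop
    (H17.KW.dD X (e + 1) 0) (H17.KW.toSec1 c)
  have h3 : H17.KW.secH X (H17.KW.D X (e + 1) 0)
      (H17.KW.toSec X (e + 1) (H17.KW.dFam X (e + 1) 0 c)) =
      (H17.KW.secH X (H17.KW.D X (e + 1) (0 + 1)) (H17.KW.toSec1 c)).comp
        (Abelian.Ext.mk₀ (H17.KW.dD X (e + 1) 0)) (add_zero 0) := by
    refine Eq.trans ?_ h2.symm
    exact congrArg (H17.KW.secH X (H17.KW.D X (e + 1) 0)) h1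
  have h4 := H17.KW.IsRes.cyc_boundary μ.res (H17.KW.ZSh X)
    (H17.KW.secH X (H17.KW.D X (e + 1) (0 + 1)) (H17.KW.toSec1 c))
  exact (congrArg (H17.KW.IsRes.cyc μ.res (H17.KW.ZSh X)) h3).trans h4

/-- The restriction of the class of a cycle. -/
def rMd (μ : Md f π e q n) : H17.KW.Cyc X (e + 1) →+ H μ.F (e + 1) :=
  (Sheaf.H.map μ.ρ (e + 1)).comp (clMd μ)

lemma rMd_dFam (μ : Md f π e q n) (c) : rMd μ (H17.KW.dFam X (e + 1) 0 c) = 0 :=
  (congrArg (Sheaf.H.map μ.ρ (e + 1)) (clMd_dFam μ c)).trans (map_zero _)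

lemma rMd_nsmul (μ : Md f π e q n) (z : H17.KW.Cyc X (e + 1)) : rMd μ (q • z) = 0 :=
  (map_nsmul (rMd μ) q z).trans (H17.KW.nsmul_H_eq_zero q μ.q0 _)

section comp

variable (T : Version.{u} (e + 1)) (μ : Md f π e q n) (a : T.S X ≅ μ.K)
  (b : push (thickι f n) (Q T (thick f n) q) ≅ μ.F)
  (hb : redQ T (thickι f n) q ≫ b.hom = a.hom ≫ μ.ρ)
  (hc : ∀ z : Cyc X e, ap (onH a.hom (e + 1)) (ap (cycT T X) z) = clMd μ (famC z))

include hb hc

lemma map_red_cyc (z : Cyc X e) : ap (onH b.hom (e + 1))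
    (ap (onH (redQ T (thickι f n) q) (e + 1)) (ap (cycT T X) z)) = rMd μ (famC z) := by
  refine (onH_comp (redQ T (thickι f n) q) b.hom (e + 1) _).symm.trans ?_
  rw [hb]
  refine (onH_comp a.hom μ.ρ (e + 1) _).trans ?_
  rw [hc]
  rfl

lemma kill_RatT (z : Cyc X e) (hz : z ∈ Rat X e q) :
    ap (cycT T X ≫ onH (redQ T (thickι f n) q) (e + 1)) z = 0 := by
  refine onH_injective b (e + 1) ?_
  refine (map_red_cyc T μ a b hb hc z).trans ?_
  refine Eq.trans ?_ (ap_zero (onH b.hom (e + 1))).symm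
  obtain ⟨c, z', rfl⟩ := (mem_Rat q z).1 hz
  rw [famC_add, map_add, famC_nsmul, rMd_nsmul, add_zero, H84.KB.famC_dv]
  exact rMd_dFam μ _

/-- The defining equation of the restriction map. -/
lemma resQ_spec : toCHq X e q ≫ resQ T f q n ≫
    pushH (thickι f n) (Q T (thick f n) q) (e + 1) =
      cycT T X ≫ onH (redQ T (thickι f n) q) (e + 1) := by
  refine the_spec (P := fun g => toCHq X e q ≫ g ≫
    pushH (thickι f n) (Q T (thick f n) q) (e + 1) =
      cycT T X ≫ onH (redQ T (thickι f n) q) (e + 1)) ?_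
  obtain ⟨g, hg⟩ : ∃ g : CHq X e q ⟶ H (push (thickι f n) (Q T (thick f n) q)) (e + 1),
      toCHq X e q ≫ g = cycT T X ≫ onH (redQ T (thickι f n) q) (e + 1) :=
    exists_desc (Rat X e q) (cycT T X ≫ onH (redQ T (thickι f n) q) (e + 1))
      (kill_RatT T μ a b hb hc)
  have hi := isIso_pushH (thickι f n) (H62.Clos.isClosedImmersion_thickι f n).isClosedEmbedding
    (Q T (thick f n) q) (e + 1)
  obtain ⟨g', hg'⟩ : ∃ g' : CHq X e q ⟶ H (Q T (thick f n) q) (e + 1),
      g' ≫ pushH (thickι f n) (Q T (thick f n) q) (e + 1) = g :=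
    exists_comp_iso (asIso (pushH (thickι f n) (Q T (thick f n) q) (e + 1))) g
  exact ⟨g', (congrArg (fun t => toCHq X e q ≫ t) hg').trans hg⟩

lemma map_resQ (z : Cyc X e) : ap (onH b.hom (e + 1))
    (ap (pushH (thickι f n) (Q T (thick f n) q) (e + 1))
      (ap (resQ T f q n) (ap (toCHq X e q) z))) = rMd μ (famC z) := by
  rw [← map_red_cyc T μ a b hb hc z]
  refine congrArg (ap (onH b.hom (e + 1))) ?_
  exact congrArg (fun g => ap g z) (resQ_spec T μ a b hb hc)

/-- Injectivity. -/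
lemma resQ_injective (hi : ∀ z : H17.KW.Cyc X (e + 1), rMd μ z = 0 →
      ∃ c z', z = H17.KW.dFam X (e + 1) 0 c + q • z') :
    Function.Injective (ap (resQ T f q n)) := by
  refine ap_injective _ ?_
  intro x hx
  obtain ⟨z, rfl⟩ := toCHq_surjective x
  have h1 := map_resQ T μ a b hb hc z
  rw [hx, ap_zero, ap_zero] at h1
  obtain ⟨c, z', hz⟩ := hi (famC z) h1.symm
  exact toCHq_eq_zero (fun c => H84.KB.famC_dv c) z c z' hz

/-- Surjectivity. -/
lemma resQ_surjective (hs : ∀ y : H μ.F (e + 1), ∃ z, rMd μ z = y) :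
    Function.Surjective (ap (resQ T f q n)) := by
  intro y
  obtain ⟨z, hz⟩ := hs (ap (onH b.hom (e + 1))
    (ap (pushH (thickι f n) (Q T (thick f n) q) (e + 1)) y))
  refine ⟨ap (toCHq X e q) (ofFam z), ?_⟩
  refine (bijective_pushH (thickι f n)
    (H62.Clos.isClosedImmersion_thickι f n).isClosedEmbedding (Q T (thick f n) q) (e + 1)).1 ?_
  refine onH_injective b (e + 1) ?_
  rw [map_resQ T μ a b hb hc (ofFam z), famC_ofFam, hz]

end comp

end

end Pool.Agent.H15.KI
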