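import Pool.Agent.H15.KI.Defs
import Pool.Agent.H84.KEW.Sur

/-!
# Project KEW-I: targets, algebra and sheaves
-/

namespace Pool.Agent.H15.KI

open AlgebraicGeometry CategoryTheory CategoryTheory.Limits TopologicalSpace Opposite Polynomial
open Pool.Agent.H15.KS Pool.Agent.H62.KB
open Pool.Agent.H84.KEW (LocSurjAt)

universe u

noncomputable section

/-! ### Algebra -/

/-- `S` is the directed colimit of the rings `R j`. -/
structure IsCol {J : Type u} [Preorder J] (R : J → Type u) [∀ j, CommRing (R j)] (S : Type u)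
    [CommRing S] (r : ∀ i j, i ≤ j → R i →+* R j) (φ : ∀ j, R j →+* S) : Prop where
  dir : ∀ i j : J, ∃ k, i ≤ k ∧ j ≤ k
  ne : Nonempty J
  comp : ∀ i j k (h : i ≤ j) (h' : j ≤ k), (r j k h').comp (r i j h) = r i k (h.trans h')
  map : ∀ i j (h : i ≤ j), (φ j).comp (r i j h) = φ i
  surj : ∀ s : S, ∃ (j : J) (x : R j), φ j x = s
  inj : ∀ (j : J) (x : R j), φ j x = 0 → ∃ (k : J) (h : j ≤ k), r j k h x = 0

/-- COL: Milnor K-groups commute with directed colimits. -/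
def T_COL : Prop :=
  ∀ (J : Type u) [Preorder J] (R : J → Type u) [∀ j, CommRing (R j)] (S : Type u) [CommRing S]
    (r : ∀ i j, i ≤ j → R i →+* R j) (φ : ∀ j, R j →+* S), IsCol R S r φ → ∀ n : ℕ,
    (∀ z : MK S n, ∃ (j : J) (w : MK (R j) n), ap (mkMap (φ j) n) w = z) ∧
    ∀ (j : J) (w : MK (R j) n), ap (mkMap (φ j) n) w = 0 →
      ∃ (k : J) (h : j ≤ k), ap (mkMap (r j k h) n) w = 0

/-- NAGC: `R ↦ R(t)` commutes with directed colimits. -/
def T_NAGC : Prop :=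
  ∀ (J : Type u) [Preorder J] (R : J → Type u) [∀ j, CommRing (R j)] (S : Type u) [CommRing S]
    (r : ∀ i j, i ≤ j → R i →+* R j) (φ : ∀ j, R j →+* S), IsCol R S r φ →
    IsCol (fun j => (Nag (R j) : Type u)) (Nag S) (fun i j h => nagMap (r i j h))
      (fun j => nagMap (φ j))

/-- GERM: sequences and germs of sequences at infinity. -/
def T_GERM : Prop :=
  ∀ (B : Type u) [CommRing B] (n : ℕ),
    (∀ z : MK ((Filter.atTop : Filter ℕ).Germ B) n, ∃ w : MK (ℕ → B) n,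
      ap (mkMap (Filter.Germ.coeRingHom (R := B) (Filter.atTop : Filter ℕ)) n) w = z) ∧
    ∀ w : MK (ℕ → B) n,
      ap (mkMap (Filter.Germ.coeRingHom (R := B) (Filter.atTop : Filter ℕ)) n) w = 0 →
      ∃ N : ℕ, ∀ i ≥ N, ap (mkMap (Pi.evalRingHom (fun _ : ℕ => B) i) n) w = 0

/-- PTS: a sequence which avoids all polynomials with unit content. -/
def T_PTS : Prop :=
  ∀ (O : Type u) [CommRing O] [IsLocalRing O], Infinite (IsLocalRing.ResidueField O) →
    ∃ a : ℕ → O, (∀ P ∈ cont O, ∃ N : ℕ, ∀ i ≥ N, IsUnit (P.eval (a i))) ∧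
      ∀ P ∈ cont (Nag O), ∃ N : ℕ, ∀ i ≥ N, IsUnit (P.eval (toNag O (a i)))

/-- ALG: for local rings with infinite residue field the naive and the improved Milnor K-groups
agree. -/
def T_ALG : Prop :=
  ∀ (O : Type u) [CommRing O] [IsLocalRing O], Infinite (IsLocalRing.ResidueField O) → ∀ n : ℕ,
    (∀ a : MK O n, ap (mkMap (toNag O) n) a = 0 → a = 0) ∧
    ∀ b : MK (Nag O) n, ap (mkMap (toNag (Nag O)) n) b = ap (mkMap (nagMap (toNag O)) n) b →
      ∃ a : MK O n, ap (mkMap (toNag O) n) a = b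

/-- K1: the improved `K_1(R)` is generated by the units of `R`. -/
def T_K1 : Prop :=
  ∀ (R : Type u) [CommRing R] (b : MK (Nag R) 1),
    ap (mkMap (toNag (Nag R)) 1) b = ap (mkMap (nagMap (toNag R)) 1) b →
      ∃ a : MK R 1, ap (mkMap (toNag R) 1) a = b

/-! ### Sheaves -/

/-- The morphism is locally injective at `x`. -/
def LocInjAt {X : Scheme.{u}} {F G : AbSh X} (φ : F ⟶ G) (x : X) : Prop :=
  ∀ (U : X.Opens), x ∈ U → ∀ s : secs F U, ap (onSecs φ U) s = 0 →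
    ∃ (V : X.Opens) (hV : V ≤ U), x ∈ V ∧ F.obj.map (homOfLE hV).op s = 0

/-- PULL: the morphisms `pull`. -/
def T_PULL : Prop :=
  (∀ (Φ : CommRingCat.{u} ⥤ AddCommGrpCat.{u}) (X Y : Scheme.{u}) (i : Y ⟶ X) (U : X.Opens)
    (a : Φ.obj Γ(X, U)), ap (onSecs (pull Φ i) U) (ap (toShf (X.presheaf ⋙ Φ) U) a) =
      ap (toShf (Y.presheaf ⋙ Φ) (i ⁻¹ᵁ U)) (ap (Φ.map (i.app U)) a)) ∧
  (∀ (Φ : CommRingCat.{u} ⥤ AddCommGrpCat.{u}) (X Y Z : Scheme.{u}) (j : Z ⟶ Y) (i : Y ⟶ X),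
    pull Φ (j ≫ i) = pull Φ i ≫ (pushF i).map (pull Φ j)) ∧
  ∀ (Φ Ψ : CommRingCat.{u} ⥤ AddCommGrpCat.{u}) (α : Φ ⟶ Ψ) (X Y : Scheme.{u}) (i : Y ⟶ X),
    onSh α X ≫ pull Ψ i = pull Φ i ≫ (pushF i).map (onSh α Y)

/-- IMP: the restriction maps of the improved Milnor K-sheaf and the comparison map. -/
def T_IMP : Prop :=
  ∀ n : ℕ, (∀ X : Scheme.{u}, (improved n).c X ≫ inKI n X = onSh (k0 n) X) ∧
    (∀ (X Y : Scheme.{u}) (i : Y ⟶ X), (improved n).res i ≫ (pushF i).map (inKI n Y) =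
      inKI n X ≫ pull (NagF ⋙ MKF n) i) ∧
    (∀ (X Y Z : Scheme.{u}) (j : Z ⟶ Y) (i : Y ⟶ X),
      (improved n).res (j ≫ i) = (improved n).res i ≫ (pushF i).map ((improved n).res j)) ∧
    ∀ (X Y : Scheme.{u}) (i : Y ⟶ X), (improved n).c X ≫ (improved n).res i =
      pull (MKF n) i ≫ (pushF i).map ((improved n).c Y)

/-- LOCC: the comparison map of the improved Milnor K-sheaf at points with infinite residue
field, and in degree one. -/
def T_LOCC : Prop :=
  (∀ (n : ℕ) (X : Scheme.{u}) (x : X), Infinite (IsLocalRing.ResidueField (X.presheaf.stalk x)) →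
    LocInjAt ((improved n).c X) x ∧ LocSurjAt (X := X.toTopCat) ((improved n).c X) x) ∧
  ∀ X : Scheme.{u}, Epi ((improved 1).c X)

/-- The properties of a version of the Milnor K-sheaf which are used. -/
structure Good {n : ℕ} (T : Version.{u} n) : Prop where
  c_res : ∀ {X Y : Scheme.{u}} (i : Y ⟶ X),
    T.c X ≫ T.res i = pull (MKF n) i ≫ (pushF i).map (T.c Y)
  res_comp : ∀ {X Y Z : Scheme.{u}} (j : Z ⟶ Y) (i : Y ⟶ X),
    T.res (j ≫ i) = T.res i ≫ (pushF i).map (T.res j)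
  inj : ∀ (X : Scheme.{u}) (x : X), Infinite (IsLocalRing.ResidueField (X.presheaf.stalk x)) →
    LocInjAt (T.c X) x
  surj : ∀ (X : Scheme.{u}) (x : X), Infinite (IsLocalRing.ResidueField (X.presheaf.stalk x)) →
    LocSurjAt (X := X.toTopCat) (T.c X) x
  epi : n = 1 → ∀ X : Scheme.{u}, Epi (T.c X)

/-- GOOD: both versions are good. -/
def T_GOOD : Prop := ∀ n : ℕ, Good (naive.{u} n) ∧ Good (improved.{u} n)

/-- PNT: the residue field of a point which is not closed is infinite. -/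
def T_PNT : Prop :=
  ∀ (X : Scheme.{u}) (x : X), ¬ IsClosed ({x} : Set X) →
    Infinite (IsLocalRing.ResidueField (X.presheaf.stalk x))

/-- AUG: the augmentation of the Gersten complex extends. -/
def T_AUG : Prop :=
  ∀ (e : ℕ) (T : Version.{u} (e + 1)), Good T → ∀ (X : Scheme.{u}) [IsNoetherian X],
    (∀ v : Pt X (e + 1) (e + 1), Infinite (IsLocalRing.ResidueField (X.presheaf.stalk v.pt))) →
    T.c X ≫ aug T X = top X (e + 1)

end

end Pool.Agent.H15.KI
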