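import Pool.Agent.H15.KI.TargetsA
import Pool.Agent.H12.KSJ.Asm3

/-!
# Project KEW-I: targets, the restriction map for a general resolution
-/

open CategoryTheory TopologicalSpace Opposite AlgebraicGeometry Limits
open Pool.Agent.H62.MK Pool.Agent.H84.KEW Pool.Agent.H19.KN Pool.Agent.H12.KSJ
open Pool.Agent.H17.KW (kap Pts entry column dFam D dD topSh KSh redSh thick thickι Fsh AbSh
  IsRes Cyc toSec secH IsProjectiveOver ZSh)
open Pool.Agent.H12.KG (Sp GenSp kA stA rho projStr)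

universe u

namespace Pool.Agent.H15.KI

noncomputable section

/-- A morphism of abelian sheaves which is locally injective at `x` (old layer). -/
def InjAt {X : TopCat.{u}} {F G : Shf X} (φ : F ⟶ G) (x : X) : Prop :=
  ∀ (U : Opens X), x ∈ U → ∀ s : F.obj.obj (op U), φ.hom.app (op U) s = 0 →
    ∃ (V : Opens X) (hV : V ≤ U), x ∈ V ∧ F.obj.map (homOfLE hV).op s = 0

/-- The residue field of the point is infinite. -/
abbrev Inf {X : Scheme.{u}} (x : X) : Prop :=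
  Infinite (IsLocalRing.ResidueField (X.presheaf.stalk x))

/-- A resolution `t : K ⟶ D X (e+1) (e+1)` with a morphism `ρ : K ⟶ F` which agrees with the
resolution and the restriction of the Milnor K-sheaf at the points with infinite residue field. -/
structure Md {A : Type u} [CommRing A] [IsLocalRing A] {X : Scheme.{u}} [IsNoetherian X]
    (f : X ⟶ Spec (CommRingCat.of A)) (π : A) (e q n : ℕ) where
  K : AbSh X
  F : AbSh X
  t : K ⟶ D X (e + 1) (e + 1)
  ρ : K ⟶ F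
  c : KSh X (e + 1) ⟶ K
  c' : Fsh f q (e + 1) n ⟶ F
  res : IsRes (D X (e + 1)) (dD X (e + 1)) e t
  ct : c ≫ t = topSh X (e + 1)
  cρ : c ≫ ρ = redSh (thickι f n) q (e + 1) ≫ c'
  q0 : q • 𝟙 F = 0
  out : ∀ U : Opens X.toTopCat, (∀ x ∈ U, ¬ Sp f π x) → ∀ s : F.obj.obj (op U), s = 0
  surj : ∀ x : X, Inf x → LocSurjAt (X := X.toTopCat) c x
  surj' : ∀ x : X, Inf x → LocSurjAt (X := X.toTopCat) c' x
  inj' : ∀ x : X, Inf x → InjAt (X := X.toTopCat) c' x
  zero : e = 0 → Epi c ∧ Epi c' ∧ Mono c'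

section nu

variable {X : Scheme.{u}} [IsNoetherian X] {A : Type u} [CommRing A] [IsLocalRing A]
  {f : X ⟶ Spec (CommRingCat.of A)} {π : A} {e q n : ℕ} (μ : Md f π e q n)

/-- The kernel of `ρ`. -/
abbrev NMd : AbSh X := kernel μ.ρ

/-- The embedding of the kernel in the sheaf of horizontal families of level `e + 1`. -/
def nuMd : NMd μ ⟶
    (E (X := X.toTopCat) (pH f π (e + 1) (e + 1)) (AH f π (e + 1) (e + 1))).sheaf :=
  kernel.ι _ ≫ μ.t ≫ mapE (reH f π (e + 1) (e + 1)) (isLocalHom_reH f π (e + 1) (e + 1))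

/-- The subgroups of germs of the kernel. -/
abbrev nuGMd (y : X.toTopCat) :
    AddSubgroup (Π₀ v : HPts f π (e + 1) (e + 1), AH f π (e + 1) (e + 1) v) :=
  nuGerms (X := X.toTopCat) (pH f π (e + 1) (e + 1)) (AH f π (e + 1) (e + 1)) (nuMd μ) y

/-- The class of a cycle. -/
def clMd : Cyc X (e + 1) →+ Sheaf.H μ.K (e + 1) :=
  ((IsRes.cyc μ.res (ZSh X)).comp (secH X (D X (e + 1) 0))).comp (toSec X (e + 1))

end nu

/-- LOCDD for a general resolution. -/
def T_LOCDDg : Prop :=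
  ∀ (A : Type u) [CommRing A] (X : Scheme.{u}) [IsNoetherian X] (f : X ⟶ Spec (CommRingCat.of A))
    (π : A) (e : ℕ) (K : AbSh X) (t : K ⟶ D X (e + 1) (e + 1)),
    IsRes (D X (e + 1)) (dD X (e + 1)) e t →
    (∀ s, IsLocalHom (X := X.toTopCat) (pH f π (e + 1) (s + 1)) (pH f π (e + 1) s)
      (dH f π (e + 1) s)) ∧
    (∀ s g, dFam X (e + 1) s (dFam X (e + 1) (s + 1) g) = 0) ∧
    ∀ s g, dH f π (e + 1) s (dH f π (e + 1) (s + 1) g) = 0

/-- HEX for a general resolution. -/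
def T_HEXg : Prop :=
  ∀ (A : Type u) [CommRing A] (X : Scheme.{u}) [IsNoetherian X] (f : X ⟶ Spec (CommRingCat.of A))
    (π : A) (e : ℕ) (K : AbSh X) (t : K ⟶ D X (e + 1) (e + 1)),
    IsRes (D X (e + 1)) (dD X (e + 1)) e t → ∀ x : X.toTopCat, ¬ Sp f π x →
    (∀ s, s < e → ∀ g : Π₀ v : HPts f π (e + 1) (s + 1), AH f π (e + 1) (s + 1) v,
      gen (X := X.toTopCat) (pH f π (e + 1) (s + 1)) (AH f π (e + 1) (s + 1)) x g = g →
      gen (X := X.toTopCat) (pH f π (e + 1) s) (AH f π (e + 1) s) x (dH f π (e + 1) s g) = 0 →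
      ∃ g', gen (X := X.toTopCat) (pH f π (e + 1) (s + 1)) (AH f π (e + 1) (s + 1)) x
        (dH f π (e + 1) (s + 1) g') = g) ∧
    ∀ g : Π₀ v : HPts f π (e + 1) 0, AH f π (e + 1) 0 v,
      gen (X := X.toTopCat) (pH f π (e + 1) 0) (AH f π (e + 1) 0) x g = g →
      ∃ g', gen (X := X.toTopCat) (pH f π (e + 1) 0) (AH f π (e + 1) 0) x
        (dH f π (e + 1) 0 g') = g

/-- NUX for a general resolution. -/
def T_NUXg : Prop :=
  ∀ (A : Type u) [CommRing A] [IsDomain A] [IsDiscreteValuationRing A]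
    (X : Scheme.{u}) [IsNoetherian X] (f : X ⟶ Spec (CommRingCat.of A)) (π : A), Irreducible π →
    ∀ (e q n : ℕ), 1 ≤ n → (∀ v : Pts X (e + 1) (e + 1), ¬ Sp f π v.1) → ∀ μ : Md f π e q n,
    Mono (nuMd μ) ∧
    (∀ (U : Opens X.toTopCat) (c : (NMd μ).obj.obj (op U)), ∀ x ∈ U,
      gen (X := X.toTopCat) (pH f π (e + 1) e) (AH f π (e + 1) e) x (dH f π (e + 1) e
        (famOf (X := X.toTopCat) (pH f π (e + 1) (e + 1)) (AH f π (e + 1) (e + 1))
          (nuMd μ) c)) = 0) ∧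
    ∀ x : X.toTopCat, ¬ Sp f π x →
      ∀ g : Π₀ v : HPts f π (e + 1) (e + 1), AH f π (e + 1) (e + 1) v,
      gen (X := X.toTopCat) (pH f π (e + 1) (e + 1)) (AH f π (e + 1) (e + 1)) x g = g →
      gen (X := X.toTopCat) (pH f π (e + 1) e) (AH f π (e + 1) e) x (dH f π (e + 1) e g) = 0 →
      g ∈ nuGMd μ x

/-- NSM for a general resolution. -/
def T_NSMg : Prop :=
  ∀ (A : Type u) [CommRing A] [IsDomain A] [IsDiscreteValuationRing A]
    (X : Scheme.{u}) [IsNoetherian X] (f : X ⟶ Spec (CommRingCat.of A)) (π : A), Irreducible π →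
    ∀ (e q n : ℕ) (μ : Md f π e q n) (y : X) (c : X.presheaf.stalk y) (u : (X.presheaf.stalk y)ˣ)
      (b : Fin e → (X.presheaf.stalk y)ˣ), (u : X.presheaf.stalk y) = 1 + stA f y π ^ n * c →
    ∃ g ∈ nuGMd μ y, ∀ (v : HPts f π (e + 1) (e + 1)) (h : v.1.1 ⤳ y),
      g v = Pool.Agent.H62.MK.map (rho h) (e + 1) (sym (Fin.cons u b : Fin (e + 1) → _))

/-- NQX for a general resolution. -/
def T_NQXg : Prop :=
  ∀ (A : Type u) [CommRing A] [IsDomain A] [IsDiscreteValuationRing A]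
    (X : Scheme.{u}) [IsNoetherian X] (f : X ⟶ Spec (CommRingCat.of A)) (π : A) (e q n : ℕ)
    (μ : Md f π e q n) (y : X.toTopCat)
    (g : Π₀ v : HPts f π (e + 1) (e + 1), AH f π (e + 1) (e + 1) v),
    gen (X := X.toTopCat) (pH f π (e + 1) (e + 1)) (AH f π (e + 1) (e + 1)) y g = g →
    gen (X := X.toTopCat) (fun v : Pts X (e + 1) e => (v.1 : X)) (fun v => MilnorK (kap X v.1) e) y
      (dFam X (e + 1) e (exH f π (e + 1) (e + 1) g)) = 0 →
    q • g ∈ nuGMd μ y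

/-- SMT for a general resolution. -/
def T_SMTg : Prop :=
  ∀ (A : Type u) [CommRing A] [IsDomain A] [IsDiscreteValuationRing A]
    (X : Scheme.{u}) [IsNoetherian X] (f : X ⟶ Spec (CommRingCat.of A)) (π : A), Irreducible π →
    ∀ (e q n : ℕ), 1 ≤ q → 1 ≤ n → ∀ μ : Md f π e q n, (∀ x : X, Order.coheight x ≤ e + 2) →
    (∀ y : X, Order.coheight y = 1 → ∀ (w : X) (h : w ⤳ y), w ≠ y →
      IsDiscreteValuationRing (rho h).range ∧ ∀ w' : X, w' ⤳ y → w' ≠ y → w' = w) →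
    ∀ R : ∀ s, X.toTopCat → AddSubgroup (Π₀ v : HPts f π (e + 1) s, AH f π (e + 1) s v),
      (∀ y, R (e + 1) y = nuGMd μ y) → SMs f π (e + 1) R e

/-- KVg: the cohomology of the kernel vanishes. -/
def T_KVg : Prop :=
  ∀ (A : Type u) [CommRing A] [IsDomain A] [IsDiscreteValuationRing A] [HenselianLocalRing A]
    [CharZero A] (X : Scheme.{u}) [IsNoetherian X] (f : X ⟶ Spec (CommRingCat.of A)) (π : A)
    (e q n : ℕ) [SmoothOfRelativeDimension (e + 1) f], Irreducible π → IsProjectiveOver f →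
    1 ≤ q → 1 ≤ n → ∀ μ : Md f π e q n, Subsingleton (Sheaf.H (kernel μ.ρ) (e + 2))

/-- COK: the cohomology of the image of `ρ` is the cohomology of `F` in degree `e + 1`. -/
def T_COK : Prop :=
  ∀ (A : Type u) [CommRing A] [IsLocalRing A] (X : Scheme.{u}) [IsNoetherian X]
    (f : X ⟶ Spec (CommRingCat.of A)) (π : A) (e q n : ℕ), (∀ x : X, Order.coheight x ≤ e + 2) →
    ∀ (μ : Md f π e q n) (I : AbSh X) (ρ₁ : μ.K ⟶ I) (j : I ⟶ μ.F), Epi ρ₁ → Mono j →
    ρ₁ ≫ j = μ.ρ → Function.Bijective (Sheaf.H.map j (e + 1))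

/-- SURg: surjectivity for a general resolution. -/
def T_SURg : Prop :=
  ∀ (A : Type u) [CommRing A] [IsDomain A] [IsDiscreteValuationRing A] [HenselianLocalRing A]
    [CharZero A] (X : Scheme.{u}) [IsNoetherian X] (f : X ⟶ Spec (CommRingCat.of A)) (π : A)
    (e q n : ℕ) [SmoothOfRelativeDimension (e + 1) f], Irreducible π → IsProjectiveOver f →
    1 ≤ q → 1 ≤ n → ∀ (μ : Md f π e q n) (y : Sheaf.H μ.F (e + 1)),
      ∃ z : Cyc X (e + 1), Sheaf.H.map μ.ρ (e + 1) (clMd μ z) = y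

/-- KIL: sections killed by `ρ` satisfy the conditions. -/
def T_KIL : Prop :=
  ∀ (A : Type u) [CommRing A] [IsDomain A] [IsDiscreteValuationRing A] (X : Scheme.{u})
    [IsNoetherian X] (f : X ⟶ Spec (CommRingCat.of A)) (π : A), Irreducible π →
    ∀ q n e : ℕ, n ≠ 0 → (e ≠ 0 → ∀ (v : Pts X (e + 1) (e + 1)) (y : X), v.1 ⤳ y →
      GenSp f π v.1 y → Inf y) →
    ∀ (μ : Md f π e q n) (U : Opens X.toTopCat) (c : μ.K.obj.obj (op U)),
      μ.ρ.hom.app (op U) c = 0 → ∀ x ∈ U,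
      gen (H15.KEW.pt X (e + 1) (e + 1)) (H15.KEW.KK X (e + 1) (e + 1)) x
        (show (E (H15.KEW.pt X (e + 1) (e + 1)) (H15.KEW.KK X (e + 1) (e + 1))).sec U from
          μ.t.hom.app (op U) c).1 ∈ H15.KEW.PP f π q n (e + 1) (e + 1) x

/-- GSP: the generic points of the special fibre have infinite residue field, if the relative
dimension is at least two. -/
def T_GSP : Prop :=
  ∀ (A : Type u) [CommRing A] [IsDomain A] [IsDiscreteValuationRing A] (X : Scheme.{u})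
    [IsNoetherian X] (f : X ⟶ Spec (CommRingCat.of A)) (π : A) (e : ℕ)
    [SmoothOfRelativeDimension (e + 1) f], Irreducible π → e ≠ 0 →
    ∀ (v : Pts X (e + 1) (e + 1)) (y : X), v.1 ⤳ y → GenSp f π v.1 y → Inf y

/-- GNP: the points of codimension zero have infinite residue field. -/
def T_GNP : Prop :=
  ∀ (A : Type u) [CommRing A] [IsDomain A] [IsDiscreteValuationRing A] [CharZero A]
    (X : Scheme.{u}) [IsNoetherian X] (f : X ⟶ Spec (CommRingCat.of A)) (e : ℕ)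
    [SmoothOfRelativeDimension (e + 1) f] (v : X), Order.coheight v = 0 → Inf v

/-- INJg: injectivity for a general resolution. -/
def T_INJg : Prop :=
  ∀ (A : Type u) [CommRing A] [IsDomain A] [IsDiscreteValuationRing A] [HenselianLocalRing A]
    [CharZero A] (p : ℕ), p.Prime → ∀ (π ε : A) (E : ℕ), Irreducible π → IsUnit ε →
    (p : A) = ε * π ^ E → ∀ r n : ℕ, 1 ≤ r → 2 * (r * E) + 2 ≤ n →
    ∀ (X : Scheme.{u}) [IsNoetherian X] (f : X ⟶ Spec (CommRingCat.of A)) (e : ℕ)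
      [SmoothOfRelativeDimension (e + 1) f], IsProjectiveOver f →
    ∀ (μ : Md f π e (p ^ r) n) (z : Cyc X (e + 1)),
      Sheaf.H.map μ.ρ (e + 1) (clMd μ z) = 0 →
      ∃ c z', z = dFam X (e + 1) 0 c + (p ^ r) • z'

end

end Pool.Agent.H15.KI
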